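import Pool.Agent.Mg.F4388f3.G808de0

open Filter Topology Pool.Agent.MP_4388f3_co

/-- Incidence graphs of arbitrary finite projective planes whose orders tend to infinity are
log-convergent, and the limit does not depend on the sequence. -/
theorem Pool.Agent.Results.MP_4388f3_co.LogConvergent.result
    (H₁ H₂ : BipGraph) (_h₁ : ∃ a b, H₁.E a b) (h₂ : ∃ a b, H₂.E a b) :
    ∃ r : ℝ, ∀ (G : ℕ → BipGraph) (m : ℕ → ℕ), (∀ n, IsPlaneOfOrder (G n) (m n)) →
      Tendsto m atTop atTop →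
      Tendsto (fun n => (-Real.log (homDensity H₁ (G n))) / (-Real.log (homDensity H₂ (G n))))
        atTop (𝓝 r) := by
  obtain ⟨k₁, c₁, C₁, hc₁, hC₁, t₁⟩ := density_theta H₁
  obtain ⟨k₂, c₂, C₂, hc₂, hC₂, t₂⟩ := density_theta H₂
  obtain ⟨C, -, t₃⟩ := density_le H₂ h₂
  exact ⟨(k₁ : ℝ) / k₂, fun G m h hm =>
    ratio_tendsto (fun n => (geo (h n)).x_pos) (x_tendsto h hm) hc₁ hC₁ hc₂ hC₂
      (fun n => t₁ _ _ (h n)) (fun n => t₂ _ _ (h n)) (fun n => t₃ _ _ (h n))⟩
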