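import Pool.Agent.MP_4388f3_co.KerE

open Pool.Agent.MP_4388f3_co

/-- The kernel of a uniformly random homomorphism from a fixed bipartite graph `H` to the incidence
graph of an arbitrary projective plane of order `m` is, up to an error `C / m` with `C` depending
only on `H`, uniformly distributed on the nonempty set `typical H`. -/
theorem Pool.Agent.Results.MP_4388f3_co.TypicalKernel.result (H : BipGraph) :
    (typical H).Nonempty ∧ ∃ C : ℝ, ∀ (G : BipGraph) (m : ℕ), IsPlaneOfOrder G m → ∀ s,
      (s ∈ typical H →
        |(kerCount H G s : ℝ) / homCount H G - 1 / (typical H).ncard| ≤ C / m) ∧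
      (s ∉ typical H → (kerCount H G s : ℝ) / homCount H G ≤ C / m) :=
  typical_kernel H
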